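import Mathlib

/-!
# The boundedness loci of the McMullen-type families accumulate only on the cardioid
-/

set_option autoImplicit false

open Complex

namespace Pool.Agent.Results.MP_9ed304_an.NearCardioid

/-- The principal `2n`-th root `|a| ^ (1 / 2n) * exp (i arg a / 2n)`. -/
noncomputable def root (n : ℕ) (a : ℂ) : ℂ :=
  ((‖a‖ ^ (1 / (2 * n) : ℝ) : ℝ) : ℂ) * exp ((arg a / (2 * n) : ℝ) * I)

/-- The principal square root `|a| ^ (1 / 2) * exp (i arg a / 2)`. -/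
noncomputable def sq (a : ℂ) : ℂ := ((√‖a‖ : ℝ) : ℂ) * exp ((arg a / 2 : ℝ) * I)

/-- The parameter `b = a ^ (1 / 2n) - 2 √a`. -/
noncomputable def b (n : ℕ) (a : ℂ) : ℂ := root n a - 2 * sq a

/-- The map `r_{n,a}(z) = z ^ n + a / z ^ n + b` (with a pole at `z = 0`). -/
noncomputable def r (n : ℕ) (a z : ℂ) : ℂ := z ^ n + a / z ^ n + b n a

/-- The free critical value `v₋ = a ^ (1 / 2n) - 4 √a`. -/
noncomputable def vminus (n : ℕ) (a : ℂ) : ℂ := root n a - 4 * sq a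

/-- The boundedness locus: the orbit of `v₋` does not meet the pole `0` and is bounded. -/
def M (n : ℕ) : Set ℂ :=
  {a | a ≠ 0 ∧ ∃ B : ℝ, ∀ k : ℕ, (r n a)^[k] (vminus n a) ≠ 0 ∧ ‖(r n a)^[k] (vminus n a)‖ ≤ B}

/-- The limiting cardioid `(1 + exp (i θ)) ^ 2 / 16`, `0 ≤ θ ≤ 2 π`. -/
def cardioid : Set ℂ :=
  {a | ∃ θ : ℝ, 0 ≤ θ ∧ θ ≤ 2 * Real.pi ∧ a = 1 / 16 * (1 + exp (θ * I)) ^ 2}

lemma root_eq {n : ℕ} {a : ℂ} (ha : a ≠ 0) : root n a = exp (log a / (2 * n)) := by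
  have h : 0 < ‖a‖ := norm_pos_iff.mpr ha
  rw [root, Real.rpow_def_of_pos h, ofReal_exp, ← exp_add]
  congr 1
  rw [Complex.log]
  push_cast
  ring

lemma norm_root {n : ℕ} (a : ℂ) : ‖root n a‖ = ‖a‖ ^ (1 / (2 * n) : ℝ) := by
  rw [root, norm_mul, norm_exp_ofReal_mul_I, mul_one, norm_real, Real.norm_eq_abs,
    abs_of_nonneg (by positivity)]

lemma norm_sq' (a : ℂ) : ‖sq a‖ = √‖a‖ := by
  rw [sq, norm_mul, norm_exp_ofReal_mul_I, mul_one, norm_real, Real.norm_eq_abs,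
    abs_of_nonneg (by positivity)]

lemma sq_sq (a : ℂ) : sq a ^ 2 = a := by
  rw [sq, mul_pow, ← ofReal_pow, Real.sq_sqrt (norm_nonneg _), ← exp_nat_mul]
  have : ((2 : ℕ) : ℂ) * (((arg a / 2 : ℝ) : ℂ) * I) = (arg a : ℂ) * I := by
    push_cast; ring
  rw [this]
  exact norm_mul_exp_arg_mul_I a

/-- escape to infinity -/
lemma escape {n : ℕ} {a v : ℂ} (hn : 1 ≤ n) {R : ℝ} (hR : 1 ≤ R)
    (hRn : ∀ x : ℝ, R ≤ x → 2 * x + ‖a‖ + ‖b n a‖ ≤ x ^ n) {k₀ : ℕ}
    (hk : R ≤ ‖(r n a)^[k₀] v‖) :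
    ¬ ∃ B : ℝ, ∀ k : ℕ, (r n a)^[k] v ≠ 0 ∧ ‖(r n a)^[k] v‖ ≤ B := by
  have step : ∀ z : ℂ, R ≤ ‖z‖ → 2 * ‖z‖ ≤ ‖r n a z‖ := by
    intro z hz
    have h1 : 1 ≤ ‖z‖ := hR.trans hz
    have h2 : ‖a / z ^ n‖ ≤ ‖a‖ := by
      rw [norm_div, norm_pow]
      exact div_le_self (norm_nonneg _) (one_le_pow₀ h1)
    have h3 := hRn ‖z‖ hz
    have h4 : ‖z‖ ^ n ≤ ‖r n a z‖ + ‖a / z ^ n‖ + ‖b n a‖ := by
      rw [← norm_pow]
      have e : z ^ n = r n a z - a / z ^ n - b n a := by rw [r]; ring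
      calc ‖z ^ n‖ = ‖r n a z - a / z ^ n - b n a‖ := by rw [← e]
        _ ≤ ‖r n a z - a / z ^ n‖ + ‖b n a‖ := norm_sub_le _ _
        _ ≤ ‖r n a z‖ + ‖a / z ^ n‖ + ‖b n a‖ := by gcongr; exact norm_sub_le _ _
    linarith
  have grow : ∀ j : ℕ, 2 ^ j * R ≤ ‖(r n a)^[k₀ + j] v‖ := by
    intro j
    induction j with
    | zero => simpa using hk
    | succ j ih =>
      rw [← add_assoc, Function.iterate_succ_apply']
      have hpow : (1 : ℝ) ≤ 2 ^ j := one_le_pow₀ (by norm_num)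
      have h1 : R ≤ ‖(r n a)^[k₀ + j] v‖ := by nlinarith
      have h2 := step _ h1
      rw [pow_succ]; nlinarith
  rintro ⟨B, hB⟩
  obtain ⟨j, hj⟩ := pow_unbounded_of_one_lt B (by norm_num : (1 : ℝ) < 2)
  have h1 := grow j
  have h2 := (hB (k₀ + j)).2
  have hpow : (0 : ℝ) < 2 ^ j := by positivity
  nlinarith

/-- large parameters are not in the locus -/
lemma large {n : ℕ} (hn : 3 ≤ n) {a : ℂ} (ha : 4 ≤ ‖a‖) : a ∉ M n := by
  rintro ⟨ha0, hB⟩
  set s := √‖a‖ with hs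
  have hss : s ^ 2 = ‖a‖ := Real.sq_sqrt (norm_nonneg _)
  have hs2 : 2 ≤ s := by
    rw [hs]; apply Real.le_sqrt_of_sq_le; linarith
  have hw : ‖root n a‖ ≤ s := by
    rw [norm_root, hs, Real.sqrt_eq_rpow]
    apply Real.rpow_le_rpow_of_exponent_le (by linarith)
    have : (1 : ℝ) ≤ n := by
      have : 1 ≤ n := by omega
      exact_mod_cast this
    apply div_le_div_of_nonneg_left <;> linarith
  have hsq : ‖sq a‖ = s := norm_sq' a
  have hv : 3 * s ≤ ‖vminus n a‖ := by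
    have : 4 * ‖sq a‖ ≤ ‖vminus n a‖ + ‖root n a‖ := by
      have e : 4 * sq a = root n a - vminus n a := by rw [vminus]; ring
      calc 4 * ‖sq a‖ = ‖4 * sq a‖ := by rw [norm_mul]; norm_num
        _ = ‖root n a - vminus n a‖ := by rw [e]
        _ ≤ ‖root n a‖ + ‖vminus n a‖ := norm_sub_le _ _
        _ = _ := by ring
    rw [hsq] at this; linarith
  have hb : ‖b n a‖ ≤ 3 * s := by
    calc ‖b n a‖ ≤ ‖root n a‖ + ‖2 * sq a‖ := norm_sub_le _ _
      _ = ‖root n a‖ + 2 * s := by rw [norm_mul, hsq]; norm_num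
      _ ≤ _ := by linarith
  refine escape (v := vminus n a) (k₀ := 0) (by omega) (R := 3 * s) (by linarith) ?_ (by simpa using hv) hB
  intro x hx
  have hx1 : 1 ≤ x := by linarith
  have h3 : x ^ 3 ≤ x ^ n := pow_le_pow_right₀ hx1 hn
  have h4 : 2 * x + s ^ 2 + 3 * s ≤ x ^ 3 := by nlinarith [mul_self_nonneg (x - 3 * s), mul_nonneg (by linarith : (0:ℝ) ≤ x) (by nlinarith : (0:ℝ) ≤ x * x - 9 * s ^ 2)]
  rw [← hss]; linarith

/-- **The boundedness loci lie in any neighbourhood of the limiting cardioid for all large `n`.** -/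
theorem result : ∀ ε : ℝ, 0 < ε → ∃ N : ℕ, 3 ≤ N ∧ ∀ n : ℕ, N ≤ n →
    M n ⊆ Metric.thickening ε cardioid := by
  intro ε₀ hε₀
  -- reduce to `ε ≤ 1`
  obtain ⟨ε, hε, hε1, hεε⟩ : ∃ ε : ℝ, 0 < ε ∧ ε ≤ 1 ∧ ε ≤ ε₀ :=
    ⟨min ε₀ 1, lt_min hε₀ one_pos, min_le_right _ _, min_le_left _ _⟩
  set δ := ε / 2 with hδ
  have hδ0 : 0 < δ := by positivity
  have hδ1 : δ < 1 := by linarith
  obtain ⟨N₁, hN₁⟩ := pow_unbounded_of_one_lt (14 : ℝ) (by linarith : (1 : ℝ) < 1 + δ)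
  obtain ⟨N₂, hN₂⟩ := pow_unbounded_of_one_lt (11 / ε : ℝ)
    (by rw [lt_div_iff₀ (by linarith)]; linarith : (1 : ℝ) < 1 / (1 - δ))
  obtain ⟨C, hC⟩ : ∃ C : ℝ, C = Real.log 4 + |Real.log ε| + Real.pi := ⟨_, rfl⟩
  obtain ⟨N₃, hN₃⟩ := exists_nat_gt (C / δ + C)
  refine ⟨N₁ + N₂ + N₃ + 3, by omega, fun n hn a haM => ?_⟩
  have hn3 : 3 ≤ n := by omega
  have ha4 : ‖a‖ < 4 := by
    by_contra h
    exact large hn3 (not_lt.mp h) haM
  obtain ⟨ha0, hB⟩ := haM
  apply Metric.thickening_mono hεε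
  rw [Metric.mem_thickening_iff]
  by_cases hsmall : ‖a‖ < ε
  · refine ⟨0, ⟨Real.pi, Real.pi_pos.le, by linarith [Real.pi_pos], by simp⟩, ?_⟩
    simpa using hsmall
  rw [not_lt] at hsmall
  have hC0 : 0 < C := by
    have h1 : 0 < Real.log 4 := Real.log_pos (by norm_num)
    have h2 := abs_nonneg (Real.log ε)
    have h3 := Real.pi_pos
    rw [hC]; linarith
  have hnC : C / δ + C < n := by
    have : (N₃ : ℝ) ≤ n := by exact_mod_cast (by omega : N₃ ≤ n)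
    linarith
  have hn0 : (0 : ℝ) < n := by
    have : C / δ > 0 := by positivity
    linarith
  -- the root is near one
  have hlog : ‖log a‖ ≤ C := by
    have h1 : log a = (Real.log ‖a‖ : ℂ) + arg a * I := by rw [Complex.log]
    have h2 : ‖log a‖ ≤ |Real.log ‖a‖| + |arg a| := by
      rw [h1]
      refine (norm_add_le _ _).trans ?_
      rw [norm_mul, norm_I, mul_one, norm_real, norm_real, Real.norm_eq_abs, Real.norm_eq_abs]
    have h3 : |Real.log ‖a‖| ≤ Real.log 4 + |Real.log ε| := by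
      rw [abs_le]
      constructor
      · have : Real.log ε ≤ Real.log ‖a‖ := Real.log_le_log hε hsmall
        have h5 := neg_abs_le (Real.log ε)
        have h6 : 0 < Real.log 4 := Real.log_pos (by norm_num)
        linarith
      · have : Real.log ‖a‖ ≤ Real.log 4 := Real.log_le_log (norm_pos_iff.mpr ha0) ha4.le
        have h5 := abs_nonneg (Real.log ε)
        linarith
    have h4 := abs_arg_le_pi a
    rw [hC]; linarith
  have hw : ‖root n a - 1‖ ≤ δ := by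
    rw [root_eq ha0]
    have h1 : ‖log a / (2 * n)‖ ≤ C / (2 * n) := by
      rw [norm_div, norm_mul, norm_natCast, norm_ofNat]
      gcongr
    have h2 : C / (2 * n) ≤ δ / 2 := by
      rw [div_le_div_iff₀ (by positivity) (by norm_num)]
      have : C ≤ δ * n := by
        have h3 : C / δ < n := by linarith
        rw [div_lt_iff₀ hδ0] at h3
        linarith
      linarith
    have h3 := norm_exp_sub_one_le (x := log a / (2 * n)) (by linarith)
    linarith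
  have hs : ‖sq a‖ ≤ 2 := by
    rw [norm_sq']
    apply Real.sqrt_le_iff.mpr
    constructor <;> linarith
  have hwn : ‖root n a‖ ≤ 2 := by
    have : ‖root n a‖ ≤ ‖root n a - 1‖ + ‖(1 : ℂ)‖ := by
      have e : root n a = (root n a - 1) + 1 := by ring
      calc ‖root n a‖ = ‖(root n a - 1) + 1‖ := by rw [← e]
        _ ≤ _ := norm_add_le _ _
    rw [norm_one] at this
    linarith
  have hb : ‖b n a‖ ≤ 6 := by
    calc ‖b n a‖ ≤ ‖root n a‖ + ‖2 * sq a‖ := norm_sub_le _ _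
      _ = ‖root n a‖ + 2 * ‖sq a‖ := by rw [norm_mul]; norm_num
      _ ≤ _ := by linarith
  -- escape from the first image
  have hesc : ¬ 4 ≤ ‖r n a (vminus n a)‖ := by
    intro h4
    refine escape (v := vminus n a) (k₀ := 1) (by omega) (R := 4) (by norm_num) ?_
      (by simpa using h4) hB
    intro x hx
    have h3 : x ^ 3 ≤ x ^ n := pow_le_pow_right₀ (by linarith) hn3
    have h5 : 2 * x + 10 ≤ x ^ 3 := by nlinarith [mul_nonneg (by linarith : (0:ℝ) ≤ x) (by nlinarith : (0:ℝ) ≤ x * x - 16)]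
    linarith
  rw [not_le] at hesc
  set v := vminus n a with hv
  have hr : r n a v = v ^ n + a / v ^ n + b n a := rfl
  have hv0 : v ≠ 0 := by simpa using (hB.choose_spec 0).1
  have hup : ‖v‖ < 1 + δ := by
    by_contra h
    rw [not_lt] at h
    have h1 : (14 : ℝ) < ‖v‖ ^ n := by
      calc (14 : ℝ) < (1 + δ) ^ N₁ := hN₁
        _ ≤ (1 + δ) ^ n := pow_le_pow_right₀ (by linarith) (by omega)
        _ ≤ ‖v‖ ^ n := by gcongr
    have h2 : ‖a / v ^ n‖ ≤ ‖a‖ := by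
      rw [norm_div, norm_pow]
      exact div_le_self (norm_nonneg _) (by linarith)
    have h3 : ‖v‖ ^ n ≤ ‖r n a v‖ + ‖a / v ^ n‖ + ‖b n a‖ := by
      rw [← norm_pow]
      have e : v ^ n = r n a v - a / v ^ n - b n a := by rw [hr]; ring
      calc ‖v ^ n‖ = ‖r n a v - a / v ^ n - b n a‖ := by rw [← e]
        _ ≤ ‖r n a v - a / v ^ n‖ + ‖b n a‖ := norm_sub_le _ _
        _ ≤ _ := by gcongr; exact norm_sub_le _ _
    linarith
  have hlow : 1 - δ < ‖v‖ := by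
    by_contra h
    rw [not_lt] at h
    have hvpos : 0 < ‖v‖ := norm_pos_iff.mpr hv0
    have h1 : (11 : ℝ) < ‖a / v ^ n‖ := by
      rw [norm_div, norm_pow, lt_div_iff₀ (by positivity)]
      have h2 : ‖v‖ ^ n ≤ (1 - δ) ^ n := by gcongr
      have h3 : (11 / ε : ℝ) < (1 / (1 - δ)) ^ n := hN₂.trans_le
        (pow_le_pow_right₀ (by rw [le_div_iff₀ (by linarith)]; linarith) (by omega))
      rw [one_div, inv_pow, lt_inv_comm₀ (by positivity) (by
        have : 0 < 1 - δ := by linarith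
        positivity)] at h3
      have h4 : (11 / ε)⁻¹ = ε / 11 := by rw [inv_div]
      rw [h4] at h3
      calc 11 * ‖v‖ ^ n ≤ 11 * (1 - δ) ^ n := by gcongr
        _ < 11 * (ε / 11) := by gcongr
        _ = ε := by ring
        _ ≤ ‖a‖ := hsmall
    have h2 : ‖v ^ n‖ ≤ 1 := by
      rw [norm_pow]
      exact pow_le_one₀ (norm_nonneg _) (by linarith)
    have h3 : ‖a / v ^ n‖ ≤ ‖r n a v‖ + ‖v ^ n‖ + ‖b n a‖ := by
      have e : a / v ^ n = r n a v - v ^ n - b n a := by rw [hr]; ring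
      calc ‖a / v ^ n‖ = ‖r n a v - v ^ n - b n a‖ := by rw [← e]
        _ ≤ ‖r n a v - v ^ n‖ + ‖b n a‖ := norm_sub_le _ _
        _ ≤ _ := by gcongr; exact norm_sub_le _ _
    linarith
  -- the nearby point of the cardioid
  set q := 1 - 4 * sq a with hq
  have hvq : ‖v - q‖ ≤ δ := by
    have : v - q = root n a - 1 := by rw [hv, vminus, hq]; ring
    rw [this]; exact hw
  have hq1 : ‖q‖ < 1 + 2 * δ := by
    have h := norm_sub_norm_le q v
    have e : ‖q - v‖ = ‖v - q‖ := norm_sub_rev _ _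
    linarith
  have hq2 : 1 - 2 * δ < ‖q‖ := by
    have := norm_sub_norm_le v q
    linarith
  have hq0 : 0 < ‖q‖ := by linarith
  obtain ⟨θ, hθ0, hθ1, hθ⟩ : ∃ θ : ℝ, 0 ≤ θ ∧ θ ≤ 2 * Real.pi ∧ exp (θ * I) = -(q / ‖q‖) := by
    have hu : ‖-(q / (‖q‖ : ℂ))‖ = 1 := by
      rw [norm_neg, norm_div, norm_real, norm_norm, div_self hq0.ne']
    set u := -(q / (‖q‖ : ℂ)) with hudef
    have h1 : u = exp (arg u * I) := by
      have := norm_mul_exp_arg_mul_I u
      rw [hu] at this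
      simpa using this.symm
    by_cases harg : 0 ≤ arg u
    · exact ⟨arg u, harg, by linarith [arg_le_pi u, Real.pi_pos], h1.symm⟩
    · refine ⟨arg u + 2 * Real.pi, by linarith [neg_pi_lt_arg u, Real.pi_pos], by linarith, ?_⟩
      have : ((arg u + 2 * Real.pi : ℝ) : ℂ) * I = arg u * I + 2 * Real.pi * I := by
        push_cast; ring
      rw [this, exp_add, exp_two_pi_mul_I, mul_one]
      exact h1.symm
  refine ⟨1 / 16 * (1 + exp (θ * I)) ^ 2, ⟨θ, hθ0, hθ1, rfl⟩, ?_⟩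
  rw [hθ, dist_eq_norm]
  set s' := (1 - q / (‖q‖ : ℂ)) / 4 with hs'
  have e1 : a - 1 / 16 * (1 + -(q / (‖q‖ : ℂ))) ^ 2 = (sq a - s') * (sq a + s') := by
    have := sq_sq a
    rw [hs']
    linear_combination -this
  have e2 : sq a - s' = (1 - (‖q‖ : ℂ)) * (q / ‖q‖) / 4 := by
    have hq0' : (‖q‖ : ℂ) ≠ 0 := by exact_mod_cast hq0.ne'
    have e3 : sq a = (1 - q) / 4 := by rw [hq]; ring
    rw [e3, hs']
    field_simp
    ring
  have hunit : ‖q / (‖q‖ : ℂ)‖ = 1 := by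
    rw [norm_div, norm_real, norm_norm, div_self hq0.ne']
  have h1 : ‖sq a - s'‖ ≤ δ / 2 := by
    rw [e2, norm_div, norm_mul, hunit, mul_one]
    have : ‖(1 : ℂ) - (‖q‖ : ℂ)‖ ≤ 2 * δ := by
      have e4 : (1 : ℂ) - (‖q‖ : ℂ) = ((1 - ‖q‖ : ℝ) : ℂ) := by push_cast; ring
      rw [e4, norm_real, Real.norm_eq_abs, abs_le]
      constructor <;> linarith
    rw [norm_ofNat]
    linarith
  have h2 : ‖sq a + s'‖ ≤ 5 / 2 := by
    refine (norm_add_le _ _).trans ?_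
    have : ‖s'‖ ≤ 1 / 2 := by
      rw [hs', norm_div, norm_ofNat]
      have := norm_sub_le (1 : ℂ) (q / (‖q‖ : ℂ))
      rw [hunit, norm_one] at this
      linarith
    linarith
  rw [e1, norm_mul]
  calc ‖sq a - s'‖ * ‖sq a + s'‖ ≤ δ / 2 * (5 / 2) := by gcongr
    _ < ε := by rw [hδ]; linarith

end Pool.Agent.Results.MP_9ed304_an.NearCardioid
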